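import Mathlib
import Pool.Agent.Lib.Helper4.BF.Main

/-!
# Components of the union of two matchings of a graph
-/

namespace Pool.Agent.Helper17.BFE

open Finset Pool.Agent.Helper4.BF

variable {V : Type*} [DecidableEq V]

/-- `v` is covered by `M`. -/
def Cov (M : Finset (Finset V)) (v : V) : Prop := ∃ e ∈ M, v ∈ e

/-- A set grown edge by edge. -/
lemma card_le_of_cross (C : Finset V) (E : Finset (Finset V)) (b : V) (hb : b ∈ C)
    (hcross : ∀ T ⊆ C, b ∈ T → T ≠ C → ∃ e ∈ E, ∃ x ∈ T, ∃ y ∈ C \ T, e = {x, y}) :
    C.card ≤ E.card + 1 := by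
  classical
  have key : ∀ n : ℕ, n < C.card → ∃ T ⊆ C, b ∈ T ∧ T.card = n + 1 ∧
      n ≤ (E.filter (fun e => e ⊆ T)).card := by
    intro n
    induction n with
    | zero =>
      intro _
      exact ⟨{b}, by simpa using hb, by simp, by simp, Nat.zero_le _⟩
    | succ n ih =>
      intro hn
      obtain ⟨T, hTC, hbT, hTn, hE⟩ := ih (by omega)
      have hne : T ≠ C := by
        rintro rfl
        omega
      obtain ⟨e, he, x, hx, y, hy, rfl⟩ := hcross T hTC hbT hne
      rw [mem_sdiff] at hy
      refine ⟨insert y T, insert_subset hy.1 hTC, mem_insert_of_mem hbT, ?_, ?_⟩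
      · rw [card_insert_of_notMem hy.2, hTn]
      · have h1 : insert ({x, y} : Finset V) (E.filter (fun e => e ⊆ T)) ⊆
            E.filter (fun e => e ⊆ insert y T) := by
          intro f hf
          rw [mem_insert] at hf
          rw [mem_filter]
          rcases hf with rfl | hf
          · refine ⟨he, ?_⟩
            intro z hz
            simp only [mem_insert, mem_singleton] at hz ⊢
            rcases hz with rfl | rfl
            · exact Or.inr hx
            · exact Or.inl rfl
          · rw [mem_filter] at hf
            exact ⟨hf.1, hf.2.trans (subset_insert _ _)⟩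
        have h2 : ({x, y} : Finset V) ∉ E.filter (fun e => e ⊆ T) := by
          rw [mem_filter]
          rintro ⟨_, h⟩
          exact hy.2 (h (by simp))
        have h3 := card_le_card h1
        rw [card_insert_of_notMem h2] at h3
        omega
  rcases Nat.eq_zero_or_pos C.card with h0 | hpos
  · omega
  · obtain ⟨T, hTC, _, hTn, hE⟩ := key (C.card - 1) (by omega)
    have := card_le_card (filter_subset (fun e => e ⊆ T) E)
    omega

section
variable [Fintype V]

open Classical in
/-- The component of `b` in the graph with edge set `E`. -/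
noncomputable def comp (E : Finset (Finset V)) (b : V) : Finset V :=
  univ.filter (fun x => Relation.ReflTransGen (fun x y => ({x, y} : Finset V) ∈ E) b x)

lemma mem_comp {E : Finset (Finset V)} {b x : V} :
    x ∈ comp E b ↔ Relation.ReflTransGen (fun x y => ({x, y} : Finset V) ∈ E) b x := by
  simp [comp]

lemma self_mem_comp (E : Finset (Finset V)) (b : V) : b ∈ comp E b :=
  mem_comp.2 Relation.ReflTransGen.refl

lemma comp_closed {E : Finset (Finset V)} {b x y : V} (hx : x ∈ comp E b)
    (hxy : ({x, y} : Finset V) ∈ E) : y ∈ comp E b :=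
  mem_comp.2 ((mem_comp.1 hx).tail hxy)

lemma edge_subset_comp {E : Finset (Finset V)} {b x : V} {e : Finset V} (he : e ∈ E)
    (he2 : e.card = 2) (hxe : x ∈ e) (hx : x ∈ comp E b) : e ⊆ comp E b := by
  obtain ⟨p, q, hpq, rfl⟩ := Finset.card_eq_two.1 he2
  simp only [mem_insert, mem_singleton] at hxe
  intro z hz
  simp only [mem_insert, mem_singleton] at hz
  have hswap : ({q, p} : Finset V) = {p, q} := Finset.pair_comm _ _
  rcases hxe with rfl | rfl <;> rcases hz with rfl | rfl
  · exact hx
  · exact comp_closed hx he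
  · exact comp_closed hx (by rw [hswap]; exact he)
  · exact hx

lemma comp_cross (E : Finset (Finset V)) (b : V) (T : Finset V) (hT : T ⊆ comp E b) (hb : b ∈ T)
    (hne : T ≠ comp E b) :
    ∃ e ∈ E.filter (fun e => e ⊆ comp E b), ∃ x ∈ T, ∃ y ∈ comp E b \ T, e = {x, y} := by
  by_contra hcon
  apply hne
  refine Subset.antisymm hT ?_
  intro x hx
  rw [mem_comp] at hx
  induction hx with
  | refl => exact hb
  | @tail x y hbx hxy ih =>
    by_contra hy
    apply hcon
    have hxC : x ∈ comp E b := mem_comp.2 hbx
    have hyC : y ∈ comp E b := comp_closed hxC hxy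
    refine ⟨{x, y}, ?_, x, ih, y, mem_sdiff.2 ⟨hyC, hy⟩, rfl⟩
    rw [mem_filter]
    refine ⟨hxy, ?_⟩
    intro z hz
    simp only [mem_insert, mem_singleton] at hz
    rcases hz with rfl | rfl
    · exact hxC
    · exact hyC

omit [Fintype V] in
/-- At most one edge of a matching contains a given vertex. -/
lemma card_at_le_one {M : Finset (Finset V)} (hM : IsMatching M) (v : V) :
    (M.filter (fun e => v ∈ e)).card ≤ 1 := by
  rw [Finset.card_le_one]
  intro e he f hf
  rw [mem_filter] at he hf
  by_contra hne
  exact (Finset.disjoint_left.1 (hM e he.1 f hf.1 hne)) he.2 hf.2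

omit [Fintype V] in
lemma card_at_eq_zero {M : Finset (Finset V)} {v : V} (h : ¬ Cov M v) :
    (M.filter (fun e => v ∈ e)).card = 0 := by
  rw [Finset.card_eq_zero, Finset.filter_eq_empty_iff]
  intro e he hv
  exact h ⟨e, he, hv⟩

omit [Fintype V] in
/-- Double counting the incidences between `C` and the edges inside `C`. -/
lemma sum_card_at (E : Finset (Finset V)) (C : Finset V) (hE : ∀ e ∈ E, e.card = 2) :
    ∑ v ∈ C, ((E.filter (fun e => e ⊆ C)).filter (fun e => v ∈ e)).card =
      2 * (E.filter (fun e => e ⊆ C)).card := by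
  have h1 : ∑ v ∈ C, ((E.filter (fun e => e ⊆ C)).filter (fun e => v ∈ e)).card =
      ∑ e ∈ E.filter (fun e => e ⊆ C), (C.filter (fun v => v ∈ e)).card := by
    simp only [Finset.card_filter]
    rw [Finset.sum_comm]
  rw [h1]
  have h2 : ∀ e ∈ E.filter (fun e => e ⊆ C), (C.filter (fun v => v ∈ e)).card = 2 := by
    intro e he
    rw [mem_filter] at he
    have : C.filter (fun v => v ∈ e) = e := by
      ext v
      rw [mem_filter]
      exact ⟨fun h => h.2, fun h => ⟨he.2 h, h⟩⟩
    rw [this]
    exact hE e he.1
  rw [Finset.sum_congr rfl h2, Finset.sum_const, smul_eq_mul, mul_comm]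

/-- The component of `b` in `M ∪ N` has at most one other vertex missed by `M` or `N`. -/
lemma not_three {M N : Finset (Finset V)} (hM : IsMatching M) (hN : IsMatching N)
    (hM2 : ∀ e ∈ M, e.card = 2) (hN2 : ∀ e ∈ N, e.card = 2) {a b c : V} (hab : a ≠ b)
    (hbc : b ≠ c) (hac : a ≠ c) (hbN : ¬ Cov N b) (haM : ¬ Cov M a) (hcM : ¬ Cov M c)
    (ha : a ∈ comp (M ∪ N) b) (hc : c ∈ comp (M ∪ N) b) : False := by
  set C := comp (M ∪ N) b with hC
  set E := (M ∪ N).filter (fun e => e ⊆ C) with hE
  have hMN2 : ∀ e ∈ M ∪ N, e.card = 2 := by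
    intro e he
    rcases mem_union.1 he with h | h
    · exact hM2 e h
    · exact hN2 e h
  have h1 : C.card ≤ E.card + 1 :=
    card_le_of_cross C E b (self_mem_comp _ _) (fun T hT hbT hne => comp_cross _ b T hT hbT hne)
  have h2 := sum_card_at (M ∪ N) C hMN2
  rw [← hE] at h2
  have hb : b ∈ C := self_mem_comp _ _
  -- the degree bound
  have h3 : ∀ v ∈ C, (E.filter (fun e => v ∈ e)).card + ((if v = a then 1 else 0) +
      (if v = b then 1 else 0) + (if v = c then 1 else 0)) ≤ 2 := by
    intro v _
    have hle : (E.filter (fun e => v ∈ e)).card ≤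
        (M.filter (fun e => v ∈ e)).card + (N.filter (fun e => v ∈ e)).card := by
      refine le_trans (card_le_card ?_) (card_union_le _ _)
      intro e he
      rw [hE, mem_filter, mem_filter, mem_union] at he
      rw [mem_union, mem_filter, mem_filter]
      rcases he.1.1 with h | h
      · exact Or.inl ⟨h, he.2⟩
      · exact Or.inr ⟨h, he.2⟩
    have hm := card_at_le_one hM v
    have hn := card_at_le_one hN v
    by_cases hva : v = a
    · subst hva
      have := card_at_eq_zero haM
      simp only [if_pos, if_neg hab, if_neg hac]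
      simp
      omega
    by_cases hvb : v = b
    · subst hvb
      have := card_at_eq_zero hbN
      simp only [if_neg hva, if_neg hbc]
      simp
      omega
    by_cases hvc : v = c
    · subst hvc
      have := card_at_eq_zero hcM
      simp only [if_neg hva, if_neg hvb]
      simp
      omega
    · simp only [if_neg hva, if_neg hvb, if_neg hvc]
      omega
  have h4 := Finset.sum_le_sum h3
  rw [Finset.sum_add_distrib, Finset.sum_add_distrib, Finset.sum_add_distrib, h2] at h4
  simp only [Finset.sum_ite_eq', ha, hb, hc, if_true, Finset.sum_const, smul_eq_mul] at h4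
  omega

end

end Pool.Agent.Helper17.BFE
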