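import Mathlib
import Pool.Agent.Lib.Helper17.BFE.Comp

/-!
# A weighted form of the lemma of Gallai
-/

namespace Pool.Agent.Helper17.BFE

open Finset Pool.Agent.Helper4.BF

variable {V : Type*} [DecidableEq V]

/-- A positive weighting of the edges of a graph in which every matching has weight at most one. -/
structure Packed (P : Finset (Finset V)) (u : Finset V → ℝ) : Prop where
  two : ∀ e ∈ P, e.card = 2
  pos : ∀ e ∈ P, 0 < u e
  pack : ∀ M ⊆ P, IsMatching M → ∑ e ∈ M, u e ≤ 1

/-- A matching of weight one. -/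
structure Opt (P : Finset (Finset V)) (u : Finset V → ℝ) (M : Finset (Finset V)) : Prop where
  sub : M ⊆ P
  mat : IsMatching M
  one : ∑ e ∈ M, u e = 1

variable {P : Finset (Finset V)} {u : Finset V → ℝ}

lemma Packed.adj (h : Packed P u) {a b : V} (hab : ({a, b} : Finset V) ∈ P)
    {M : Finset (Finset V)} (hM : Opt P u M) : Cov M a ∨ Cov M b := by
  by_contra hcon
  push Not at hcon
  obtain ⟨ha, hb⟩ := hcon
  have hdis : ∀ e ∈ M, Disjoint ({a, b} : Finset V) e := by
    intro e he
    rw [Finset.disjoint_left]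
    intro x hx hxe
    simp only [mem_insert, mem_singleton] at hx
    rcases hx with rfl | rfl
    · exact ha ⟨e, he, hxe⟩
    · exact hb ⟨e, he, hxe⟩
  have hnot : ({a, b} : Finset V) ∉ M := fun h' => ha ⟨_, h', by simp⟩
  have h1 := h.pack (insert {a, b} M) (insert_subset hab hM.sub) (by
    intro e he f hf hef
    rw [mem_insert] at he hf
    rcases he with rfl | he <;> rcases hf with rfl | hf
    · exact absurd rfl hef
    · exact hdis f hf
    · exact (hdis e he).symm
    · exact hM.mat e he f hf hef)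
  rw [sum_insert hnot, hM.one] at h1
  linarith [h.pos _ hab]

/-- Swapping two matchings inside a closed set. -/
lemma Packed.swap (h : Packed P u) {M N : Finset (Finset V)} (hM : Opt P u M) (hN : Opt P u N)
    (C : Finset V) (hC : ∀ e ∈ M ∪ N, e ⊆ C ∨ Disjoint e C) :
    Opt P u (M.filter (fun e => ¬ e ⊆ C) ∪ N.filter (fun e => e ⊆ C)) := by
  classical
  have key : ∀ A B : Finset (Finset V), Opt P u A → Opt P u B →
      (∀ e ∈ A ∪ B, e ⊆ C ∨ Disjoint e C) →
      (A.filter (fun e => ¬ e ⊆ C) ∪ B.filter (fun e => e ⊆ C)) ⊆ P ∧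
      IsMatching (A.filter (fun e => ¬ e ⊆ C) ∪ B.filter (fun e => e ⊆ C)) ∧
      ∑ e ∈ A.filter (fun e => ¬ e ⊆ C) ∪ B.filter (fun e => e ⊆ C), u e =
        ∑ e ∈ A.filter (fun e => ¬ e ⊆ C), u e + ∑ e ∈ B.filter (fun e => e ⊆ C), u e := by
    intro A B hA hB hAB
    refine ⟨union_subset ((filter_subset _ _).trans hA.sub) ((filter_subset _ _).trans hB.sub),
      ?_, ?_⟩
    · intro e he f hf hef
      rw [mem_union, mem_filter, mem_filter] at he hf
      have hd : ∀ e f : Finset V, (e ∈ A ∧ ¬ e ⊆ C) → (f ∈ B ∧ f ⊆ C) → Disjoint e f := by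
        intro e f he hf
        rcases hAB e (mem_union_left _ he.1) with h1 | h1
        · exact absurd h1 he.2
        · exact Disjoint.mono_right hf.2 h1
      rcases he with he | he <;> rcases hf with hf | hf
      · exact hA.mat e he.1 f hf.1 hef
      · exact hd e f he hf
      · exact (hd f e hf he).symm
      · exact hB.mat e he.1 f hf.1 hef
    · rw [sum_union]
      rw [Finset.disjoint_left]
      intro e he hf
      rw [mem_filter] at he hf
      exact he.2 hf.2
  obtain ⟨s1, m1, e1⟩ := key M N hM hN hC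
  obtain ⟨s2, m2, e2⟩ := key N M hN hM (by rw [union_comm]; exact hC)
  have h1 := h.pack _ s1 m1
  have h2 := h.pack _ s2 m2
  have h3 := Finset.sum_filter_add_sum_filter_not M (fun e => e ⊆ C) u
  have h4 := Finset.sum_filter_add_sum_filter_not N (fun e => e ⊆ C) u
  rw [hM.one] at h3
  rw [hN.one] at h4
  refine ⟨s1, m1, ?_⟩
  linarith

variable [Fintype V]

lemma Packed.trans (h : Packed P u) {a b c : V} (hac : a ≠ c)
    (h1 : ∀ M, Opt P u M → Cov M a ∨ Cov M b) (h2 : ∀ M, Opt P u M → Cov M b ∨ Cov M c)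
    (h3 : ∃ N, Opt P u N ∧ ¬ Cov N b) : ∀ M, Opt P u M → Cov M a ∨ Cov M c := by
  intro M hM
  rcases eq_or_ne a b with rfl | hab
  · exact h2 M hM
  rcases eq_or_ne b c with rfl | hbc
  · exact h1 M hM
  by_contra hcon
  push Not at hcon
  obtain ⟨ha, hc⟩ := hcon
  obtain ⟨N, hN, hbN⟩ := h3
  have hM2 : ∀ e ∈ M, e.card = 2 := fun e he => h.two e (hM.sub he)
  have hN2 : ∀ e ∈ N, e.card = 2 := fun e he => h.two e (hN.sub he)
  have hclosed : ∀ e ∈ M ∪ N, e ⊆ comp (M ∪ N) b ∨ Disjoint e (comp (M ∪ N) b) := by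
    intro e he
    by_cases hx : ∃ x ∈ e, x ∈ comp (M ∪ N) b
    · obtain ⟨x, hxe, hxC⟩ := hx
      refine Or.inl (edge_subset_comp he ?_ hxe hxC)
      rcases mem_union.1 he with h' | h'
      · exact hM2 e h'
      · exact hN2 e h'
    · right
      rw [Finset.disjoint_left]
      intro x hxe hxC
      exact hx ⟨x, hxe, hxC⟩
  have hswap := h.swap hM hN (comp (M ∪ N) b) hclosed
  have hb' : ¬ Cov (M.filter (fun e => ¬ e ⊆ comp (M ∪ N) b) ∪
      N.filter (fun e => e ⊆ comp (M ∪ N) b)) b := by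
    rintro ⟨e, he, hbe⟩
    rw [mem_union, mem_filter, mem_filter] at he
    rcases he with ⟨he, hne⟩ | ⟨he, _⟩
    · exact hne (edge_subset_comp (mem_union_left _ he) (hM2 e he) hbe (self_mem_comp _ _))
    · exact hbN ⟨e, he, hbe⟩
  have hx' : ∀ x, ¬ Cov M x → x ∉ comp (M ∪ N) b →
      ¬ Cov (M.filter (fun e => ¬ e ⊆ comp (M ∪ N) b) ∪
        N.filter (fun e => e ⊆ comp (M ∪ N) b)) x := by
    rintro x hx hxC ⟨e, he, hxe⟩
    rw [mem_union, mem_filter, mem_filter] at he
    rcases he with ⟨he, _⟩ | ⟨_, he⟩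
    · exact hx ⟨e, he, hxe⟩
    · exact hxC (he hxe)
  by_cases haC : a ∈ comp (M ∪ N) b
  · by_cases hcC : c ∈ comp (M ∪ N) b
    · exact not_three hM.mat hN.mat hM2 hN2 hab hbc hac hbN ha hc haC hcC
    · rcases h2 _ hswap with h' | h'
      · exact hb' h'
      · exact hx' c hc hcC h'
  · rcases h1 _ hswap with h' | h'
    · exact hx' a ha haC h'
    · exact hb' h'

/-- Gallai: a matching of weight one misses at most one vertex of a component. -/
lemma Packed.gallai (h : Packed P u) {a : V}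
    (hmiss : ∀ v, ∃ N, Opt P u N ∧ ¬ Cov N v) {x : V} (hx : x ∈ comp P a) (hxa : a ≠ x) :
    ∀ M, Opt P u M → Cov M a ∨ Cov M x := by
  rw [mem_comp] at hx
  induction hx with
  | refl => exact absurd rfl hxa
  | @tail y z hay hyz ih =>
    rcases eq_or_ne a y with rfl | hne
    · intro M hM
      exact h.adj hyz hM
    · exact h.trans hxa (ih hne) (fun M hM => h.adj hyz hM) (hmiss y)

end Pool.Agent.Helper17.BFE
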