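import Mathlib
import Pool.Agent.Lib.Helper17.BFE.Gallai

/-!
# The matching polytope theorem of Edmonds, in dual form
-/

namespace Pool.Agent.Helper17.BFE

open Finset Pool.Agent.Helper4.BF

variable {V : Type*} [DecidableEq V]

/-- A linear programming pair for the covering demands `z`. -/
theorem exists_demandPair (G : Finset (Finset V)) (hne : G.Nonempty) (z : Finset V → ℝ)
    (hz : ∀ e ∈ G, 0 < z e) :
    ∃ (k : ℝ) (u : Finset V → ℝ) (y : Finset (Finset V) → ℝ), (∀ e, 0 ≤ u e) ∧ (∀ M, 0 ≤ y M) ∧
      ∑ e ∈ G, z e * u e = k ∧ ∑ M ∈ matchings G, y M = k ∧ 0 < k ∧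
      (∀ M ∈ matchings G, ∑ e ∈ M, u e ≤ 1) ∧
      (∀ e ∈ G, z e ≤ ∑ M ∈ (matchings G).filter (fun M => e ∈ M), y M) ∧
      (∀ e ∈ G, u e ≠ 0 → ∑ M ∈ (matchings G).filter (fun M => e ∈ M), y M = z e) ∧
      (∀ M ∈ matchings G, y M ≠ 0 → ∑ e ∈ M, u e = 1) := by
  classical
  have : Nonempty G := hne.to_subtype
  have hmne : (matchings G).Nonempty :=
    ⟨∅, mem_matchings.2 ⟨empty_subset _, by intro e he; simp at he⟩⟩
  have : Nonempty (matchings G) := hmne.to_subtype
  set A : G → matchings G → ℝ :=
    fun e M => if (e : Finset V) ∈ (M : Finset (Finset V)) then 1 / z e else 0 with hA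
  obtain ⟨k, w, y, hk, hw, hy, hwk, hyk, h1, h2⟩ := lp_pair A
    (by
      intro e M
      simp only [hA]
      split_ifs
      · exact div_nonneg zero_le_one (hz _ e.2).le
      · exact le_rfl)
    (by
      intro e
      refine ⟨⟨{(e : Finset V)}, mem_matchings.2 ⟨by simp, ?_⟩⟩, by
        simp only [hA, mem_singleton, if_true]
        exact div_pos one_pos (hz _ e.2)⟩
      intro a ha b hb hab
      simp only [mem_singleton] at ha hb
      exact absurd (ha.trans hb.symm) hab)
  obtain ⟨s1, s2⟩ := slackness A hw hy hwk hyk h1 h2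
  set u' : Finset V → ℝ := fun e => if h : e ∈ G then w ⟨e, h⟩ / z e else 0 with hu'
  set y' : Finset (Finset V) → ℝ := fun M => if h : M ∈ matchings G then y ⟨M, h⟩ else 0 with hy'
  have hu'e : ∀ e : G, u' e = w e / z e := by
    intro e; simp [hu']
  have hy'e : ∀ M : matchings G, y' M = y M := by
    intro M; simp [hy']
  have c1 : ∀ M : matchings G, ∑ e, w e * A e M = ∑ e ∈ (M : Finset (Finset V)), u' e := by
    intro M
    have hsub : (M : Finset (Finset V)) ⊆ G := (mem_matchings.1 M.2).1
    calc ∑ e, w e * A e M = ∑ e : G, (if (e : Finset V) ∈ (M : Finset (Finset V)) then u' e else 0) := by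
          refine Finset.sum_congr rfl fun e _ => ?_
          rw [hu'e]; simp only [hA]
          split_ifs
          · ring
          · simp
      _ = ∑ e ∈ G, (if e ∈ (M : Finset (Finset V)) then u' e else 0) :=
          Finset.sum_coe_sort G (fun e => if e ∈ (M : Finset (Finset V)) then u' e else 0)
      _ = ∑ e ∈ (M : Finset (Finset V)), u' e := by
          rw [← Finset.sum_filter]
          refine Finset.sum_congr ?_ fun _ _ => rfl
          ext e
          rw [mem_filter]
          exact ⟨fun h => h.2, fun h => ⟨hsub h, h⟩⟩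
  have c2 : ∀ e : G, z e * ∑ M, A e M * y M =
      ∑ M ∈ (matchings G).filter (fun M => (e : Finset V) ∈ M), y' M := by
    intro e
    have hze := (hz _ e.2).ne'
    calc z e * ∑ M, A e M * y M = ∑ M : matchings G,
            (if (e : Finset V) ∈ (M : Finset (Finset V)) then y' M else 0) := by
          rw [Finset.mul_sum]
          refine Finset.sum_congr rfl fun M _ => ?_
          rw [hy'e]; simp only [hA]
          split_ifs
          · field_simp
          · simp
      _ = ∑ M ∈ matchings G, (if (e : Finset V) ∈ M then y' M else 0) :=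
          Finset.sum_coe_sort (matchings G) (fun M => if (e : Finset V) ∈ M then y' M else 0)
      _ = _ := by rw [← Finset.sum_filter]
  refine ⟨k, u', y', ?_, ?_, ?_, ?_, hk, ?_, ?_, ?_, ?_⟩
  · intro e; simp only [hu']; split_ifs with h
    · exact div_nonneg (hw _) (hz _ h).le
    · exact le_rfl
  · intro M; simp only [hy']; split_ifs
    · exact hy _
    · exact le_rfl
  · rw [← Finset.sum_coe_sort G (fun e => z e * u' e), ← hwk]
    refine Finset.sum_congr rfl fun e _ => ?_
    rw [hu'e]
    have := (hz _ e.2).ne'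
    field_simp
  · rw [← Finset.sum_coe_sort (matchings G) y', ← hyk]
    exact Finset.sum_congr rfl fun M _ => hy'e M
  · intro M hM
    rw [← c1 ⟨M, hM⟩]
    exact h1 _
  · intro e he
    rw [← c2 ⟨e, he⟩]
    have := mul_le_mul_of_nonneg_left (h2 ⟨e, he⟩) (hz e he).le
    simpa using this
  · intro e he hwe
    rw [← c2 ⟨e, he⟩, s1 ⟨e, he⟩ ?_, mul_one]
    intro h0
    apply hwe
    have := hu'e ⟨e, he⟩
    rw [h0, zero_div] at this
    exact this
  · intro M hM hyM
    rw [← c1 ⟨M, hM⟩]
    refine s2 _ ?_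
    rw [← hy'e ⟨M, hM⟩]
    exact hyM

/-- Exchanging the order of summation over matchings and edges. -/
lemma sum_matchings_swap (G Q : Finset (Finset V)) (_ : Q ⊆ G) (y : Finset (Finset V) → ℝ) :
    ∑ M ∈ matchings G, y M * ((M.filter (fun e => e ∈ Q)).card : ℝ) =
      ∑ e ∈ Q, ∑ M ∈ (matchings G).filter (fun M => e ∈ M), y M := by
  classical
  have h1 : ∀ M ∈ matchings G, y M * ((M.filter (fun e => e ∈ Q)).card : ℝ) =
      ∑ e ∈ Q, (if e ∈ M then y M else 0) := by
    intro M _
    have h2 : M.filter (fun e => e ∈ Q) = Q.filter (fun e => e ∈ M) := by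
      ext e
      simp only [mem_filter]
      tauto
    rw [h2, ← Finset.sum_filter, Finset.sum_const, nsmul_eq_mul, mul_comm]
  rw [Finset.sum_congr rfl h1, Finset.sum_comm]
  refine Finset.sum_congr rfl fun e _ => ?_
  rw [← Finset.sum_filter]

variable [Fintype V]

lemma Packed.card_missed (G : Finset (Finset V)) {P : Finset (Finset V)} {u : Finset V → ℝ}
    (_ : P ⊆ G) (h : Packed P u) (p : V)
    (hmiss : ∀ v, ∃ N, Opt P u N ∧ ¬ Cov N v) {M : Finset (Finset V)} (hM : Opt P u M) :
    ∃ m : ℕ, m ≤ 1 ∧ (¬ Cov M p → m = 1) ∧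
      (comp P p).card = 2 * (M.filter (fun e => e ⊆ comp P p)).card + m := by
  classical
  set S := comp P p with hS
  refine ⟨(S.filter (fun v => ¬ Cov M v)).card, ?_, ?_, ?_⟩
  · rw [Finset.card_le_one]
    intro x hx y hy
    rw [mem_filter] at hx hy
    by_contra hxy
    have hp : ∀ x ∈ S, p ≠ x → ∀ N, Opt P u N → Cov N p ∨ Cov N x :=
      fun x hx hpx => h.gallai hmiss hx hpx
    rcases eq_or_ne p x with rfl | hpx
    · rcases hp y hy.1 hxy M hM with h' | h'
      · exact hx.2 h'
      · exact hy.2 h'
    rcases eq_or_ne p y with rfl | hpy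
    · rcases hp x hx.1 hpx M hM with h' | h'
      · exact hy.2 h'
      · exact hx.2 h'
    rcases h.trans hxy (fun N hN => (hp x hx.1 hpx N hN).symm) (hp y hy.1 hpy) (hmiss p) M hM
      with h' | h'
    · exact hx.2 h'
    · exact hy.2 h'
  · intro hpM
    have hmem : p ∈ S.filter (fun v => ¬ Cov M v) := mem_filter.2 ⟨self_mem_comp _ _, hpM⟩
    have h1 : 1 ≤ (S.filter (fun v => ¬ Cov M v)).card := Finset.card_pos.2 ⟨p, hmem⟩
    refine le_antisymm ?_ h1
    rw [Finset.card_le_one]
    intro x hx y hy
    rw [mem_filter] at hx hy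
    by_contra hxy
    have hp : ∀ x ∈ S, p ≠ x → ∀ N, Opt P u N → Cov N p ∨ Cov N x :=
      fun x hx hpx => h.gallai hmiss hx hpx
    rcases eq_or_ne p x with rfl | hpx
    · rcases hp y hy.1 hxy M hM with h' | h'
      · exact hx.2 h'
      · exact hy.2 h'
    · rcases hp x hx.1 hpx M hM with h' | h'
      · exact hpM h'
      · exact hx.2 h'
  · have h1 := sum_card_at M S (fun e he => h.two e (hM.sub he))
    have h2 : ∀ v ∈ S, ((M.filter (fun e => e ⊆ S)).filter (fun e => v ∈ e)).card =
        (if ¬ Cov M v then 0 else 1) := by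
      intro v hv
      by_cases hc : Cov M v
      · rw [if_neg (not_not.2 hc)]
        obtain ⟨e, he, hve⟩ := hc
        refine le_antisymm ?_ ?_
        · refine le_trans (card_le_card ?_) (card_at_le_one hM.mat v)
          intro f hf
          rw [mem_filter, mem_filter] at hf
          rw [mem_filter]
          exact ⟨hf.1.1, hf.2⟩
        · refine Finset.card_pos.2 ⟨e, ?_⟩
          rw [mem_filter, mem_filter]
          exact ⟨⟨he, edge_subset_comp (hM.sub he) (h.two e (hM.sub he)) hve hv⟩, hve⟩
      · rw [if_pos hc, Finset.card_eq_zero, Finset.filter_eq_empty_iff]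
        intro e he hve
        rw [mem_filter] at he
        exact hc ⟨e, he.1, hve⟩
    rw [Finset.sum_congr rfl h2] at h1
    have h3 : ∑ v ∈ S, (if ¬ Cov M v then 0 else 1) = (S.filter (fun v => ¬ ¬ Cov M v)).card := by
      rw [Finset.card_filter]
      refine Finset.sum_congr rfl fun v _ => ?_
      by_cases hc : Cov M v <;> simp [hc]
    rw [h3] at h1
    have h4 := Finset.card_filter_add_card_filter_not (s := S) (fun v => ¬ Cov M v)
    omega

/-- The matching polytope theorem of Edmonds, in dual form. -/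
theorem edmonds_dual (G : Finset (Finset V)) (h2 : ∀ e ∈ G, e.card = 2) (z : Finset V → ℝ)
    (hz : ∀ e ∈ G, 0 < z e)
    (hdeg : ∀ v, ∑ e ∈ G.filter (fun e => v ∈ e), z e ≤ 1)
    (hodd : ∀ S : Finset V, Odd S.card →
      2 * ∑ e ∈ G.filter (fun e => e ⊆ S), z e ≤ (S.card : ℝ) - 1)
    (w : Finset V → ℝ) (hw : ∀ e, 0 ≤ w e) :
    ∃ N ∈ matchings G, ∑ e ∈ G, z e * w e ≤ ∑ e ∈ N, w e := by
  classical
  have hmne : (matchings G).Nonempty :=
    ⟨∅, mem_matchings.2 ⟨empty_subset _, by intro e he; simp at he⟩⟩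
  rcases G.eq_empty_or_nonempty with rfl | hne
  · exact ⟨∅, mem_matchings.2 ⟨Subset.refl _, by intro e he; simp at he⟩, by simp⟩
  obtain ⟨k, u, y, hu0, hy0, huk, hyk, hk0, hpack, hcov, hsl, hsly⟩ := exists_demandPair G hne z hz
  have hk1 : k ≤ 1 := by
    by_contra hk
    push Not at hk
    set P := G.filter (fun e => 0 < u e) with hP
    have hPG : P ⊆ G := filter_subset _ _
    have hpk : Packed P u := by
      refine ⟨fun e he => h2 e (hPG he), fun e he => (mem_filter.1 he).2, ?_⟩
      intro M hM hMm
      exact hpack M (mem_matchings.2 ⟨hM.trans hPG, hMm⟩)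
    have hopt : ∀ M ∈ matchings G, y M ≠ 0 → Opt P u (M.filter (fun e => e ∈ P)) := by
      intro M hM hyM
      have hM' := mem_matchings.1 hM
      refine ⟨?_, ?_, ?_⟩
      · intro e he
        exact (mem_filter.1 he).2
      · intro e he f hf
        exact hM'.2 e (mem_filter.1 he).1 f (mem_filter.1 hf).1
      · rw [← hsly M hM hyM]
        refine Finset.sum_subset (filter_subset _ _) ?_
        intro e he hne
        have hnP : e ∉ P := fun h => hne (mem_filter.2 ⟨he, h⟩)
        rw [hP, mem_filter] at hnP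
        push Not at hnP
        exact le_antisymm (hnP (hM'.1 he)) (hu0 e)
    have hPz : ∀ e ∈ P, ∑ M ∈ (matchings G).filter (fun M => e ∈ M), y M = z e :=
      fun e he => hsl e (hPG he) (mem_filter.1 he).2.ne'
    -- every vertex is missed
    have hmiss : ∀ v, ∃ N, Opt P u N ∧ ¬ Cov N v := by
      intro v
      by_contra hcon
      push Not at hcon
      have h5 := sum_matchings_swap G (P.filter (fun e => v ∈ e)) ((filter_subset _ _).trans hPG) y
      have h6 : ∑ e ∈ P.filter (fun e => v ∈ e), ∑ M ∈ (matchings G).filter (fun M => e ∈ M), y M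
          ≤ 1 := by
        rw [Finset.sum_congr rfl (fun e he => hPz e (mem_filter.1 he).1)]
        refine le_trans (Finset.sum_le_sum_of_subset_of_nonneg ?_ ?_) (hdeg v)
        · intro e he
          rw [mem_filter] at he ⊢
          exact ⟨hPG he.1, he.2⟩
        · intro e he _
          exact (hz e (mem_filter.1 he).1).le
      have h7 : k ≤ ∑ M ∈ matchings G, y M *
          ((M.filter (fun e => e ∈ P.filter (fun e => v ∈ e))).card : ℝ) := by
        rw [← hyk]
        refine Finset.sum_le_sum fun M hM => ?_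
        by_cases hyM : y M = 0
        · rw [hyM]; simp
        · have h8 := hcon _ (hopt M hM hyM)
          obtain ⟨e, he, hve⟩ := h8
          rw [mem_filter] at he
          have h9 : 1 ≤ (M.filter (fun e => e ∈ P.filter (fun e => v ∈ e))).card := by
            refine Finset.card_pos.2 ⟨e, ?_⟩
            rw [mem_filter, mem_filter]
            exact ⟨he.1, he.2, hve⟩
          have h10 : (1:ℝ) ≤ ((M.filter (fun e => e ∈ P.filter (fun e => v ∈ e))).card : ℝ) := by
            exact_mod_cast h9
          nlinarith [hy0 M]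
      rw [h5] at h7
      linarith
    -- an edge of positive weight
    obtain ⟨e0, he0⟩ : P.Nonempty := by
      by_contra hcon
      rw [Finset.not_nonempty_iff_eq_empty] at hcon
      have : ∑ e ∈ G, z e * u e = 0 := by
        refine Finset.sum_eq_zero fun e he => ?_
        have hnP : e ∉ P := by rw [hcon]; simp
        rw [hP, mem_filter] at hnP
        push Not at hnP
        rw [le_antisymm (hnP he) (hu0 e), mul_zero]
      linarith
    obtain ⟨p, q, hpq, rfl⟩ := Finset.card_eq_two.1 (hpk.two e0 he0)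
    set S := comp P p with hS
    have hpS : p ∈ S := self_mem_comp _ _
    have hqS : q ∈ S := comp_closed hpS he0
    have hScard : 2 ≤ S.card := by
      have : ({p, q} : Finset V) ⊆ S := by
        intro x hx
        simp only [mem_insert, mem_singleton] at hx
        rcases hx with rfl | rfl
        · exact hpS
        · exact hqS
      have h3 := card_le_card this
      rw [Finset.card_pair hpq] at h3
      exact h3
    have hSodd : Odd S.card := by
      obtain ⟨N, hN, hpN⟩ := hmiss p
      obtain ⟨m, _, hm2, hm3⟩ := hpk.card_missed G hPG p hmiss hN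
      rw [hm2 hpN] at hm3
      exact ⟨_, hm3⟩
    have h5 := sum_matchings_swap G (P.filter (fun e => e ⊆ S)) ((filter_subset _ _).trans hPG) y
    have h6 : 2 * ∑ e ∈ P.filter (fun e => e ⊆ S),
        ∑ M ∈ (matchings G).filter (fun M => e ∈ M), y M ≤ (S.card : ℝ) - 1 := by
      refine le_trans ?_ (hodd S hSodd)
      rw [Finset.sum_congr rfl (fun e he => hPz e (mem_filter.1 he).1)]
      refine mul_le_mul_of_nonneg_left (Finset.sum_le_sum_of_subset_of_nonneg ?_ ?_) (by norm_num)
      · intro e he
        rw [mem_filter] at he ⊢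
        exact ⟨hPG he.1, he.2⟩
      · intro e he _
        exact (hz e (mem_filter.1 he).1).le
    have h7 : ∑ M ∈ matchings G, y M * (S.card : ℝ) ≤ ∑ M ∈ matchings G, (y M +
        2 * (y M * ((M.filter (fun e => e ∈ P.filter (fun e => e ⊆ S))).card : ℝ))) := by
      refine Finset.sum_le_sum fun M hM => ?_
      by_cases hyM : y M = 0
      · rw [hyM]; simp
      · obtain ⟨m, hm1, _, hm3⟩ := hpk.card_missed G hPG p hmiss (hopt M hM hyM)
        have h8 : (M.filter (fun e => e ∈ P)).filter (fun e => e ⊆ comp P p) =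
            M.filter (fun e => e ∈ P.filter (fun e => e ⊆ S)) := by
          ext e
          simp only [mem_filter]
          tauto
        rw [h8, ← hS] at hm3
        have h9 : (S.card : ℝ) ≤
            2 * ((M.filter (fun e => e ∈ P.filter (fun e => e ⊆ S))).card : ℝ) + 1 := by
          have : S.card ≤ 2 * (M.filter (fun e => e ∈ P.filter (fun e => e ⊆ S))).card + 1 := by
            omega
          exact_mod_cast this
        nlinarith [hy0 M]
    rw [← Finset.sum_mul, hyk, Finset.sum_add_distrib, hyk, ← Finset.mul_sum, h5] at h7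
    have h10 : (2:ℝ) ≤ S.card := by exact_mod_cast hScard
    nlinarith
  obtain ⟨N, hN, hmax⟩ := Finset.exists_max_image (matchings G) (fun M => ∑ e ∈ M, w e) hmne
  refine ⟨N, hN, ?_⟩
  have h0 : 0 ≤ ∑ e ∈ N, w e := Finset.sum_nonneg fun e _ => hw e
  calc ∑ e ∈ G, z e * w e
      ≤ ∑ e ∈ G, (∑ M ∈ (matchings G).filter (fun M => e ∈ M), y M) * w e :=
        Finset.sum_le_sum fun e he => mul_le_mul_of_nonneg_right (hcov e he) (hw e)
    _ = ∑ M ∈ matchings G, y M * ∑ e ∈ M, w e := by
        simp only [Finset.mul_sum, Finset.sum_mul]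
        rw [Finset.sum_comm' (t' := matchings G) (s' := fun N => N)]
        intro e M
        simp only [mem_filter]
        constructor
        · rintro ⟨_, hM, heM⟩
          exact ⟨heM, hM⟩
        · rintro ⟨heM, hM⟩
          exact ⟨(mem_matchings.1 hM).1 heM, hM, heM⟩
    _ ≤ ∑ M ∈ matchings G, y M * ∑ e ∈ N, w e :=
        Finset.sum_le_sum fun M hM => mul_le_mul_of_nonneg_left (hmax M hM) (hy0 M)
    _ = k * ∑ e ∈ N, w e := by rw [← Finset.sum_mul, hyk]
    _ ≤ 1 * ∑ e ∈ N, w e := mul_le_mul_of_nonneg_right hk1 h0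
    _ = ∑ e ∈ N, w e := one_mul _

end Pool.Agent.Helper17.BFE
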