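import Mathlib
import Pool.Agent.Lib.Helper17.BFE.Edm

/-!
# Adding the edges of size two
-/

namespace Pool.Agent.Helper17.BFE

open Finset Pool.Agent.Helper4.BF

variable {V : Type*} [DecidableEq V]

/-- The number of edges containing `v`. -/
def dg (H : Finset (Finset V)) (v : V) : ℕ := (H.filter (fun e => v ∈ e)).card

/-- The edges with at least three vertices. -/
def big (H : Finset (Finset V)) : Finset (Finset V) := H.filter (fun e => 3 ≤ e.card)

/-- The edges with exactly two vertices. -/
def small (H : Finset (Finset V)) : Finset (Finset V) := H.filter (fun e => e.card = 2)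

lemma mem_big {H : Finset (Finset V)} {e : Finset V} : e ∈ big H ↔ e ∈ H ∧ 3 ≤ e.card := by
  simp [big]

lemma mem_small {H : Finset (Finset V)} {e : Finset V} : e ∈ small H ↔ e ∈ H ∧ e.card = 2 := by
  simp [small]

lemma sum_split {H : Finset (Finset V)} (h2 : ∀ e ∈ H, 2 ≤ e.card) {α : Type*} [AddCommMonoid α]
    (F : Finset V → α) : ∑ e ∈ H, F e = ∑ e ∈ big H, F e + ∑ e ∈ small H, F e := by
  classical
  rw [← Finset.sum_filter_add_sum_filter_not H (fun e => 3 ≤ e.card) F]
  congr 1
  refine Finset.sum_congr ?_ fun _ _ => rfl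
  ext e
  rw [mem_filter, mem_small]
  constructor
  · rintro ⟨he, h3⟩
    exact ⟨he, by have := h2 e he; omega⟩
  · rintro ⟨he, h3⟩
    exact ⟨he, by omega⟩

lemma dg_split {H : Finset (Finset V)} (h2 : ∀ e ∈ H, 2 ≤ e.card) (v : V) :
    dg H v = dg (big H) v + dg (small H) v := by
  have h := sum_split h2 (fun e => if v ∈ e then 1 else 0)
  simp only [dg, Finset.card_filter]
  exact h

/-- The size of a closed neighbourhood bounds the degrees. -/
lemma deg_le {H : Finset (Finset V)} (hlin : IsLinear H) (h2 : ∀ e ∈ H, 2 ≤ e.card) {v : V}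
    (hv : ∃ e ∈ H, v ∈ e) : 1 + dg (small H) v + 2 * dg (big H) v ≤ (nbhd H v).card := by
  rw [card_nbhd hlin hv]
  have h := sum_split h2 (fun e => if v ∈ e then e.card - 1 else 0)
  rw [← Finset.sum_filter, ← Finset.sum_filter, ← Finset.sum_filter] at h
  rw [h]
  have hb : 2 * dg (big H) v ≤ ∑ e ∈ (big H).filter (fun e => v ∈ e), (e.card - 1) := by
    rw [dg, mul_comm, ← smul_eq_mul, ← Finset.sum_const]
    refine Finset.sum_le_sum fun e he => ?_
    have := (mem_big.1 (mem_filter.1 he).1).2
    omega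
  have hs : dg (small H) v ≤ ∑ e ∈ (small H).filter (fun e => v ∈ e), (e.card - 1) := by
    rw [dg, Finset.card_eq_sum_ones]
    refine Finset.sum_le_sum fun e he => ?_
    have := (mem_small.1 (mem_filter.1 he).1).2
    omega
  omega

/-- The denominators. -/
noncomputable def len (H : Finset (Finset V)) (D : ℝ) (e : Finset V) : ℝ :=
  D - ∑ v ∈ e, (dg (big H) v : ℝ)

/-- The number of edges of a graph inside `S` at a vertex of `S`. -/
lemma card_inside_le {G : Finset (Finset V)} (hG : ∀ e ∈ G, e.card = 2) {S : Finset V} {v : V}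
    (hv : v ∈ S) : ((G.filter (fun e => e ⊆ S)).filter (fun e => v ∈ e)).card ≤ S.card - 1 := by
  have h1 : ((G.filter (fun e => e ⊆ S)).filter (fun e => v ∈ e)).card ≤
      ((S.erase v).powersetCard 1).card := by
    refine Finset.card_le_card_of_injOn (fun e => e.erase v) ?_ ?_
    · intro e he
      have he' := Finset.mem_coe.1 he
      rw [mem_filter, mem_filter] at he'
      rw [Finset.mem_coe, Finset.mem_powersetCard]
      refine ⟨Finset.erase_subset_erase _ he'.1.2, ?_⟩
      rw [Finset.card_erase_of_mem he'.2, hG e he'.1.1]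
    · intro e he f hf hef
      have he' := Finset.mem_coe.1 he
      have hf' := Finset.mem_coe.1 hf
      rw [mem_filter, mem_filter] at he' hf'
      have h := congrArg (insert v) hef
      simp only at h
      rwa [Finset.insert_erase he'.2, Finset.insert_erase hf'.2] at h
  rw [Finset.card_powersetCard, Finset.card_erase_of_mem hv, Nat.choose_one_right] at h1
  exact h1

/-- Double counting for real weights. -/
lemma sum_inside (E : Finset (Finset V)) (S : Finset V) (hE : ∀ e ∈ E, e ⊆ S) (r : V → ℝ) :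
    ∑ e ∈ E, ∑ v ∈ e, r v = ∑ v ∈ S, r v * ((E.filter (fun e => v ∈ e)).card : ℝ) := by
  have h1 : ∀ e ∈ E, ∑ v ∈ e, r v = ∑ v ∈ S, (if v ∈ e then r v else 0) := by
    intro e he
    rw [← Finset.sum_filter]
    refine Finset.sum_congr ?_ fun _ _ => rfl
    ext v
    rw [mem_filter]
    exact ⟨fun h => ⟨hE e he h, h⟩, fun h => h.2⟩
  rw [Finset.sum_congr rfl h1, Finset.sum_comm]
  refine Finset.sum_congr rfl fun v _ => ?_
  rw [← Finset.sum_filter, Finset.sum_const, nsmul_eq_mul, mul_comm]

/-- Data for the second stage. -/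
structure Stage (H : Finset (Finset V)) (D : ℝ) : Prop where
  lin : IsLinear H
  two : ∀ e ∈ H, 2 ≤ e.card
  nb : ∀ v, ((nbhd H v).card : ℝ) ≤ D
  bal : ∀ a b, a ≠ b → ({a, b} : Finset V) ∈ H → (dg H a : ℝ) + dg (big H) b ≤ D

variable {H : Finset (Finset V)} {D : ℝ}

lemma Stage.deg (h : Stage H D) {v : V} (hv : 1 ≤ dg (small H) v) :
    1 + (dg (small H) v : ℝ) + 2 * (dg (big H) v : ℝ) ≤ D := by
  have h1 : ∃ e ∈ H, v ∈ e := by
    rw [dg] at hv
    obtain ⟨e, he⟩ := Finset.card_pos.1 (Nat.lt_of_lt_of_le Nat.one_pos hv)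
    rw [mem_filter, mem_small] at he
    exact ⟨e, he.1.1, he.2⟩
  have h2 := deg_le h.lin h.two h1
  have h3 : ((1 + dg (small H) v + 2 * dg (big H) v : ℕ) : ℝ) ≤ ((nbhd H v).card : ℝ) := by
    exact_mod_cast h2
  push_cast at h3
  exact h3.trans (h.nb v)

lemma one_le_dg {G : Finset (Finset V)} {e : Finset V} (he : e ∈ G) {v : V} (hv : v ∈ e) :
    1 ≤ dg G v := Finset.card_pos.2 ⟨e, mem_filter.2 ⟨he, hv⟩⟩

lemma Stage.len_pos (h : Stage H D) {e : Finset V} (he : e ∈ small H) : 0 < len H D e := by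
  obtain ⟨a, b, hab, rfl⟩ := Finset.card_eq_two.1 (mem_small.1 he).2
  have ha := h.deg (one_le_dg he (by simp : a ∈ ({a, b} : Finset V)))
  have hb := h.deg (one_le_dg he (by simp : b ∈ ({a, b} : Finset V)))
  have ha' : (1:ℝ) ≤ dg (small H) a := by
    exact_mod_cast one_le_dg he (by simp : a ∈ ({a, b} : Finset V))
  have hb' : (1:ℝ) ≤ dg (small H) b := by
    exact_mod_cast one_le_dg he (by simp : b ∈ ({a, b} : Finset V))
  rw [len, Finset.sum_pair hab]
  linarith

lemma Stage.deg_sum (h : Stage H D) (v : V) :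
    ∑ e ∈ (small H).filter (fun e => v ∈ e), 1 / len H D e ≤ 1 := by
  rcases Nat.eq_zero_or_pos (dg (small H) v) with h0 | hpos
  · rw [dg, Finset.card_eq_zero] at h0
    rw [h0]
    simp
  · have hd : (0:ℝ) < dg (small H) v := by exact_mod_cast hpos
    have h1 : ∀ e ∈ (small H).filter (fun e => v ∈ e), 1 / len H D e ≤ 1 / dg (small H) v := by
      intro e he
      rw [mem_filter] at he
      refine one_div_le_one_div_of_le hd ?_
      obtain ⟨a, b, hab, rfl⟩ := Finset.card_eq_two.1 (mem_small.1 he.1).2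
      have hH := (mem_small.1 he.1).1
      have hs := dg_split h.two v
      have hs' : (dg H v : ℝ) = dg (big H) v + dg (small H) v := by exact_mod_cast hs
      rw [len, Finset.sum_pair hab]
      rcases (by simpa using he.2 : v = a ∨ v = b) with rfl | rfl
      · have := h.bal v b hab hH
        linarith
      · have := h.bal v a hab.symm (by rw [Finset.pair_comm]; exact hH)
        linarith
    refine (Finset.sum_le_sum h1).trans ?_
    rw [Finset.sum_const, nsmul_eq_mul]
    have : (((small H).filter (fun e => v ∈ e)).card : ℝ) = dg (small H) v := rfl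
    rw [this]
    field_simp
    exact le_rfl

lemma half_le {x y : ℝ} (hx : 0 < x) (hy : 0 < y) : 2 * (1 / ((x + y) / 2)) ≤ 1 / x + 1 / y := by
  have h1 : 2 * (1 / ((x + y) / 2)) = 4 / (x + y) := by
    field_simp
    norm_num
  have h2 : 1 / x + 1 / y = (x + y) / (x * y) := by
    field_simp
    ring
  rw [h1, h2, div_le_div_iff₀ (by positivity) (by positivity)]
  nlinarith [sq_nonneg (x - y)]

lemma Stage.odd_sum (h : Stage H D) (S : Finset V) (hS : Odd S.card) :
    2 * ∑ e ∈ (small H).filter (fun e => e ⊆ S), 1 / len H D e ≤ (S.card : ℝ) - 1 := by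
  set r : V → ℝ := fun v => 1 / (D - 2 * (dg (big H) v : ℝ)) with hr
  have hs2 : ∀ e ∈ small H, e.card = 2 := fun e he => (mem_small.1 he).2
  have h1 : ∀ e ∈ (small H).filter (fun e => e ⊆ S), 2 * (1 / len H D e) ≤ ∑ v ∈ e, r v := by
    intro e he
    rw [mem_filter] at he
    obtain ⟨a, b, hab, rfl⟩ := Finset.card_eq_two.1 (hs2 e he.1)
    have ha := h.deg (one_le_dg he.1 (by simp : a ∈ ({a, b} : Finset V)))
    have hb := h.deg (one_le_dg he.1 (by simp : b ∈ ({a, b} : Finset V)))
    have ha' : (0:ℝ) ≤ dg (small H) a := by positivity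
    have hb' : (0:ℝ) ≤ dg (small H) b := by positivity
    rw [len, Finset.sum_pair hab, Finset.sum_pair hab]
    have h2 := half_le (x := D - 2 * (dg (big H) a : ℝ)) (y := D - 2 * (dg (big H) b : ℝ))
      (by linarith) (by linarith)
    have h3 : (D - 2 * (dg (big H) a : ℝ) + (D - 2 * (dg (big H) b : ℝ))) / 2 =
        D - ((dg (big H) a : ℝ) + dg (big H) b) := by ring
    rw [h3] at h2
    exact h2
  have hpos : 0 < S.card := hS.pos
  have hSr : (0:ℝ) < S.card := by exact_mod_cast hpos
  rw [Finset.mul_sum]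
  refine (Finset.sum_le_sum h1).trans ?_
  rw [sum_inside _ S (fun e he => (mem_filter.1 he).2)]
  have h4 : ∀ v ∈ S, r v * ((((small H).filter (fun e => e ⊆ S)).filter
      (fun e => v ∈ e)).card : ℝ) ≤ ((S.card : ℝ) - 1) / S.card := by
    intro v hv
    set m := (((small H).filter (fun e => e ⊆ S)).filter (fun e => v ∈ e)).card with hm
    have hm1 : m ≤ S.card - 1 := card_inside_le hs2 hv
    have hm1' : (m:ℝ) + 1 ≤ S.card := by
      have : m + 1 ≤ S.card := by omega
      exact_mod_cast this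
    rcases Nat.eq_zero_or_pos m with h0 | hmpos
    · rw [h0]
      simp only [Nat.cast_zero, mul_zero]
      have : (1:ℝ) ≤ S.card := by exact_mod_cast hpos
      exact div_nonneg (by linarith) hSr.le
    · have hmd : m ≤ dg (small H) v := by
        rw [hm, dg]
        refine card_le_card ?_
        intro e he
        rw [mem_filter, mem_filter] at he
        rw [mem_filter]
        exact ⟨he.1.1, he.2⟩
      have hd := h.deg (v := v) (by omega)
      have hmd' : (m:ℝ) ≤ dg (small H) v := by exact_mod_cast hmd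
      have hmp : (0:ℝ) < m := by exact_mod_cast hmpos
      rw [hr]
      simp only
      have hX : (m:ℝ) + 1 ≤ D - 2 * (dg (big H) v : ℝ) := by linarith
      rw [div_mul_eq_mul_div, one_mul, div_le_div_iff₀ (by linarith) hSr]
      nlinarith
  refine (Finset.sum_le_sum h4).trans ?_
  rw [Finset.sum_const, nsmul_eq_mul]
  field_simp
  exact le_rfl

/-- Extending a dual bound by a second set of edges. -/
theorem dual_union {B K : Finset (Finset V)} (hBK : Disjoint B K) {D : ℝ} (hD0 : 0 ≤ D)
    (hB : Dual B D) (z : Finset V → ℝ) (hz0 : ∀ e ∈ K, 0 ≤ z e)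
    (hK : ∀ w : Finset V → ℝ, (∀ e, 0 ≤ w e) → ∃ N ∈ matchings K,
      ∑ e ∈ K, z e * w e ≤ ∑ e ∈ N, w e)
    (hL : ∀ e ∈ K, 1 ≤ z e * (D - ((B.filter (fun A => ¬ Disjoint e A)).card : ℝ))) :
    Dual (B ∪ K) D := by
  classical
  intro w hw
  set c : Finset V → ℝ := fun A => w A - ∑ e ∈ K.filter (fun e => ¬ Disjoint e A), z e * w e with hc
  obtain ⟨τ0, hτ0, hτ0w⟩ := hB (fun A => max (c A) 0) (fun A => le_max_right _ _)
  have hτ0' := mem_matchings.1 hτ0
  set τ := τ0.filter (fun A => 0 < c A) with hτ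
  have hτsub : τ ⊆ τ0 := filter_subset _ _
  have hτsum : ∑ A ∈ τ0, max (c A) 0 = ∑ A ∈ τ, c A := by
    rw [hτ, Finset.sum_filter]
    refine Finset.sum_congr rfl fun A _ => ?_
    split_ifs with h'
    · exact max_eq_left h'.le
    · exact max_eq_right (not_lt.1 h')
  have h1 : ∑ A ∈ B, c A ≤ D * ∑ A ∈ τ, c A := by
    rw [← hτsum]
    exact (Finset.sum_le_sum fun A _ => le_max_left _ _).trans hτ0w
  -- the second stage
  set w'' : Finset V → ℝ := fun e => if (∀ A ∈ τ, Disjoint e A) then w e else 0 with hw''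
  obtain ⟨N, hN, hNw⟩ := hK w'' (fun e => by simp only [hw'']; split_ifs; exacts [hw e, le_rfl])
  have hN' := mem_matchings.1 hN
  set N' := N.filter (fun e => ∀ A ∈ τ, Disjoint e A) with hN'def
  have hNsum : ∑ e ∈ N, w'' e = ∑ e ∈ N', w e := by
    rw [hN'def, Finset.sum_filter]
  have h2 : ∀ e ∈ K, z e * w e - ∑ A ∈ τ, (if ¬ Disjoint e A then z e * w e else 0) ≤
      z e * w'' e := by
    intro e he
    have hzw : 0 ≤ z e * w e := mul_nonneg (hz0 e he) (hw e)
    by_cases hd : ∀ A ∈ τ, Disjoint e A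
    · have : w'' e = w e := by simp only [hw'']; rw [if_pos hd]
      rw [this]
      have : 0 ≤ ∑ A ∈ τ, (if ¬ Disjoint e A then z e * w e else 0) :=
        Finset.sum_nonneg fun A _ => by split_ifs <;> first | exact hzw | exact le_rfl
      linarith
    · have : w'' e = 0 := by simp only [hw'']; rw [if_neg hd]
      rw [this, mul_zero]
      push Not at hd
      obtain ⟨A, hA, hAd⟩ := hd
      have : z e * w e ≤ ∑ A ∈ τ, (if ¬ Disjoint e A then z e * w e else 0) := by
        refine le_trans ?_ (Finset.single_le_sum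
          (f := fun A => if ¬ Disjoint e A then z e * w e else 0)
          (fun A _ => by split_ifs <;> first | exact hzw | exact le_rfl) hA)
        rw [if_pos hAd]
      linarith
  have hswap : ∀ T : Finset (Finset V), ∑ e ∈ K, ∑ A ∈ T, (if ¬ Disjoint e A then z e * w e else 0) =
      ∑ A ∈ T, ∑ e ∈ K.filter (fun e => ¬ Disjoint e A), z e * w e := by
    intro T
    rw [Finset.sum_comm]
    refine Finset.sum_congr rfl fun A _ => ?_
    rw [Finset.sum_filter]
  have h3 : ∑ e ∈ K, z e * w e - ∑ A ∈ τ, ∑ e ∈ K.filter (fun e => ¬ Disjoint e A), z e * w e ≤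
      ∑ e ∈ N', w e := by
    rw [← hNsum, ← hswap, ← Finset.sum_sub_distrib]
    exact (Finset.sum_le_sum h2).trans hNw
  -- the matching
  refine ⟨τ ∪ N', ?_, ?_⟩
  · rw [mem_matchings]
    refine ⟨union_subset ?_ ?_, ?_⟩
    · exact (hτsub.trans hτ0'.1).trans subset_union_left
    · exact ((filter_subset _ _).trans hN'.1).trans subset_union_right
    · intro e he f hf hef
      rw [mem_union] at he hf
      rcases he with he | he <;> rcases hf with hf | hf
      · exact hτ0'.2 e (hτsub he) f (hτsub hf) hef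
      · exact ((mem_filter.1 hf).2 e he).symm
      · exact (mem_filter.1 he).2 f hf
      · exact hN'.2 e (mem_filter.1 he).1 f (mem_filter.1 hf).1 hef
  · have hdisj : Disjoint τ N' :=
      Disjoint.mono (hτsub.trans hτ0'.1) ((filter_subset _ _).trans hN'.1) hBK
    rw [Finset.sum_union hdisj, Finset.sum_union hBK]
    have h4 : ∑ A ∈ τ, c A = ∑ A ∈ τ, w A -
        ∑ A ∈ τ, ∑ e ∈ K.filter (fun e => ¬ Disjoint e A), z e * w e := by
      rw [← Finset.sum_sub_distrib]
    have h5 : ∑ A ∈ τ, c A + ∑ e ∈ K, z e * w e ≤ ∑ A ∈ τ, w A + ∑ e ∈ N', w e := by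
      linarith
    have h6 := mul_le_mul_of_nonneg_left h5 hD0
    refine le_trans ?_ h6
    rw [mul_add]
    have h7 : ∑ A ∈ B, c A = ∑ A ∈ B, w A -
        ∑ e ∈ K, ∑ A ∈ B, (if ¬ Disjoint e A then z e * w e else 0) := by
      rw [hswap, ← Finset.sum_sub_distrib]
    have h8 : ∑ e ∈ K, w e ≤ D * ∑ e ∈ K, z e * w e -
        ∑ e ∈ K, ∑ A ∈ B, (if ¬ Disjoint e A then z e * w e else 0) := by
      rw [Finset.mul_sum, ← Finset.sum_sub_distrib]
      refine Finset.sum_le_sum fun e he => ?_
      have h9 : ∑ A ∈ B, (if ¬ Disjoint e A then z e * w e else 0) =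
          ((B.filter (fun A => ¬ Disjoint e A)).card : ℝ) * (z e * w e) := by
        rw [← Finset.sum_filter, Finset.sum_const, nsmul_eq_mul]
      rw [h9]
      have h13 := mul_le_mul_of_nonneg_right (hL e he) (hw e)
      nlinarith
    linarith

/-- The number of edges of `B` meeting `e` is at most the sum of the degrees. -/
lemma card_meet_le (B : Finset (Finset V)) (e : Finset V) :
    (B.filter (fun A => ¬ Disjoint e A)).card ≤ ∑ v ∈ e, dg B v := by
  classical
  refine le_trans (card_le_card ?_) (card_biUnion_le (s := e)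
    (t := fun v => B.filter (fun A => v ∈ A)))
  intro A hA
  rw [mem_filter] at hA
  rw [mem_biUnion]
  obtain ⟨v, hve, hvA⟩ := Finset.not_disjoint_iff.1 hA.2
  exact ⟨v, hve, mem_filter.2 ⟨hA.1, hvA⟩⟩

lemma big_union_small {H : Finset (Finset V)} (h2 : ∀ e ∈ H, 2 ≤ e.card) :
    big H ∪ small H = H := by
  ext e
  rw [mem_union, mem_big, mem_small]
  constructor
  · rintro (h | h) <;> exact h.1
  · intro he
    have := h2 e he
    rcases Nat.lt_or_ge e.card 3 with h | h
    · exact Or.inr ⟨he, by omega⟩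
    · exact Or.inl ⟨he, h⟩

lemma nonneg_of_nb {H : Finset (Finset V)} (h2 : ∀ e ∈ H, 2 ≤ e.card) (hne : H.Nonempty) {D : ℝ}
    (hD : ∀ v, ((nbhd H v).card : ℝ) ≤ D) : 0 ≤ D := by
  obtain ⟨e, he⟩ := hne
  have h1 := h2 e he
  obtain ⟨v, _⟩ := Finset.card_pos.1 (by omega : 0 < e.card)
  exact le_trans (Nat.cast_nonneg _) (hD v)

lemma dual_empty (D : ℝ) : Dual (∅ : Finset (Finset V)) D := by
  intro w _
  exact ⟨∅, mem_matchings.2 ⟨Subset.refl _, by intro e he; simp at he⟩, by simp⟩

/-- A dual bound for the edges with at least three vertices extends to the whole hypergraph. -/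
theorem Stage.dual [Fintype V] (h : Stage H D) (hbig : Dual (big H) D) : Dual H D := by
  classical
  rcases H.eq_empty_or_nonempty with rfl | hne
  · exact dual_empty D
  have hD0 : 0 ≤ D := nonneg_of_nb h.two hne h.nb
  rw [← big_union_small h.two]
  refine dual_union ?_ hD0 hbig (fun e => 1 / len H D e)
    (fun e he => (div_pos one_pos (h.len_pos he)).le) ?_ ?_
  · rw [Finset.disjoint_left]
    intro e he hf
    have a1 := (mem_big.1 he).2
    have a2 := (mem_small.1 hf).2
    omega
  · intro w hw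
    exact edmonds_dual (small H) (fun e he => (mem_small.1 he).2) (fun e => 1 / len H D e)
      (fun e he => div_pos one_pos (h.len_pos he)) (fun v => h.deg_sum v)
      (fun S hS => h.odd_sum S hS) w hw
  · intro e he
    have hp := h.len_pos he
    rw [one_div, ← div_eq_inv_mul, le_div_iff₀ hp, one_mul, len]
    have h10 : (((big H).filter (fun A => ¬ Disjoint e A)).card : ℝ) ≤
        ∑ v ∈ e, (dg (big H) v : ℝ) := by
      exact_mod_cast card_meet_le (big H) e
    linarith

end Pool.Agent.Helper17.BFE
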