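import Mathlib
import Pool.Agent.Lib.Helper17.BFE.Ext

/-!
# Degree-regular hypergraphs, disjoint large edges, and the general inequality
-/

namespace Pool.Agent.Helper17.BFE

open Finset Pool.Agent.Helper4.BF

variable {V : Type*} [DecidableEq V]

lemma dual_mono {H : Finset (Finset V)} {D D' : ℝ} (h : Dual H D) (hD : D ≤ D') : Dual H D' := by
  intro w hw
  obtain ⟨M, hM, h1⟩ := h w hw
  exact ⟨M, hM, h1.trans (mul_le_mul_of_nonneg_right hD (Finset.sum_nonneg fun e _ => hw e))⟩

/-- Pairwise disjoint edges. -/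
lemma dual_disjoint {B : Finset (Finset V)}
    (h : ∀ e ∈ B, ∀ f ∈ B, e ≠ f → Disjoint e f) : Dual B 1 := by
  intro w _
  exact ⟨B, mem_matchings.2 ⟨Subset.refl _, h⟩, by rw [one_mul]⟩

lemma covered_deg_le {H : Finset (Finset V)} (hlin : IsLinear H) (h2 : ∀ e ∈ H, 2 ≤ e.card)
    {a b : V} (hab : ({a, b} : Finset V) ∈ H) {D : ℝ} (hD : ∀ v, ((nbhd H v).card : ℝ) ≤ D) :
    1 + (dg (small H) a : ℝ) + 2 * (dg (big H) a : ℝ) ≤ D := by
  have h3 := deg_le hlin h2 ⟨_, hab, (by simp : a ∈ ({a, b} : Finset V))⟩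
  have h4 : ((1 + dg (small H) a + 2 * dg (big H) a : ℕ) : ℝ) ≤ ((nbhd H a).card : ℝ) := by
    exact_mod_cast h3
  push_cast at h4
  exact h4.trans (hD a)

/-- The larger edges are pairwise disjoint. -/
theorem dual_of_disjoint [Fintype V] {H : Finset (Finset V)} (hlin : IsLinear H)
    (h2 : ∀ e ∈ H, 2 ≤ e.card) {D : ℝ} (hD : ∀ v, ((nbhd H v).card : ℝ) ≤ D)
    (hdis : ∀ e ∈ big H, ∀ f ∈ big H, e ≠ f → Disjoint e f) : Dual H D := by
  rcases H.eq_empty_or_nonempty with rfl | hne
  · exact dual_empty D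
  have h1 : 1 ≤ D := by
    obtain ⟨e, he⟩ := hne
    obtain ⟨v, hv⟩ := Finset.card_pos.1 (by have := h2 e he; omega : 0 < e.card)
    refine le_trans ?_ (hD v)
    have : 1 ≤ (nbhd H v).card := by
      refine Finset.card_pos.2 ⟨v, ?_⟩
      rw [nbhd, mem_biUnion]
      exact ⟨e, mem_filter.2 ⟨he, hv⟩, hv⟩
    exact_mod_cast this
  refine Stage.dual ⟨hlin, h2, hD, ?_⟩ (dual_mono (dual_disjoint hdis) h1)
  intro a b _ habH
  have h3 := covered_deg_le hlin h2 habH hD
  have h4 : dg (big H) b ≤ 1 := by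
    rw [dg, Finset.card_le_one]
    intro e he f hf
    rw [mem_filter] at he hf
    by_contra hef
    exact (Finset.disjoint_left.1 (hdis e he.1 f hf.1 hef)) he.2 hf.2
  have h4' : (dg (big H) b : ℝ) ≤ 1 := by exact_mod_cast h4
  have h5 : (dg H a : ℝ) = dg (big H) a + dg (small H) a := by exact_mod_cast dg_split h2 a
  have h6 : (0:ℝ) ≤ dg (big H) a := Nat.cast_nonneg _
  linarith

/-- The number of edges of size `i` containing `v`. -/
def dgi (H : Finset (Finset V)) (i : ℕ) (v : V) : ℕ :=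
  (H.filter (fun e => e.card = i ∧ v ∈ e)).card

lemma sum_by_size [Fintype V] (H : Finset (Finset V)) (v : V) (F : ℕ → ℕ) :
    ∑ e ∈ H.filter (fun e => v ∈ e), F e.card =
      ∑ i ∈ range (Fintype.card V + 1), F i * dgi H i v := by
  rw [← Finset.sum_fiberwise_of_maps_to (s := H.filter (fun e => v ∈ e))
    (t := range (Fintype.card V + 1)) (g := fun e => e.card)
    (fun e _ => by rw [mem_range]; exact Nat.lt_succ_of_le (Finset.card_le_univ e))]
  refine Finset.sum_congr rfl fun i _ => ?_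
  rw [Finset.sum_congr rfl (g := fun _ => F i) (fun e he => by rw [(mem_filter.1 he).2]),
    Finset.sum_const, smul_eq_mul, mul_comm, dgi]
  congr 2
  rw [Finset.filter_filter]
  refine Finset.filter_congr fun e _ => ?_
  tauto

/-- For every `i`, every vertex lying in an edge lies in the same number of edges of size `i`. -/
def Regular (H : Finset (Finset V)) : Prop :=
  ∀ v w, (∃ e ∈ H, v ∈ e) → (∃ e ∈ H, w ∈ e) → ∀ i, dgi H i v = dgi H i w

lemma Regular.sum_eq [Fintype V] {H : Finset (Finset V)} (h : Regular H) {v w : V}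
    (hv : ∃ e ∈ H, v ∈ e) (hw : ∃ e ∈ H, w ∈ e) (F : ℕ → ℕ) :
    ∑ e ∈ H.filter (fun e => v ∈ e), F e.card = ∑ e ∈ H.filter (fun e => w ∈ e), F e.card := by
  rw [sum_by_size, sum_by_size]
  exact Finset.sum_congr rfl fun i _ => by rw [h v w hv hw i]

lemma dg_eq_sum (H : Finset (Finset V)) (p : ℕ → Prop) [DecidablePred p] (v : V) :
    dg (H.filter (fun e => p e.card)) v =
      ∑ e ∈ H.filter (fun e => v ∈ e), (if p e.card then 1 else 0) := by
  rw [dg, ← Finset.card_filter, Finset.filter_filter, Finset.filter_filter]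
  congr 1
  refine Finset.filter_congr fun e _ => ?_
  tauto

lemma Regular.dg_eq [Fintype V] {H : Finset (Finset V)} (h : Regular H) {v w : V}
    (hv : ∃ e ∈ H, v ∈ e) (hw : ∃ e ∈ H, w ∈ e) (p : ℕ → Prop) [DecidablePred p] :
    dg (H.filter (fun e => p e.card)) v = dg (H.filter (fun e => p e.card)) w := by
  rw [dg_eq_sum, dg_eq_sum]
  exact h.sum_eq hv hw (fun i => if p i then 1 else 0)

/-- Degree-regular linear hypergraphs. -/
theorem dual_regular [Fintype V] {H : Finset (Finset V)} (hlin : IsLinear H)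
    (h2 : ∀ e ∈ H, 2 ≤ e.card) (D : ℕ) (hD : ∀ v, (nbhd H v).card ≤ D) (hreg : Regular H) :
    Dual H (D : ℝ) := by
  classical
  rcases H.eq_empty_or_nonempty with rfl | hne
  · exact dual_empty _
  obtain ⟨e0, he0⟩ := hne
  obtain ⟨v0, hv0⟩ := Finset.card_pos.1 (by have := h2 e0 he0; omega : 0 < e0.card)
  have hc0 : ∃ e ∈ H, v0 ∈ e := ⟨e0, he0, hv0⟩
  set H4 := H.filter (fun e => 4 ≤ e.card) with hH4
  set H3 := H.filter (fun e => e.card = 3) with hH3
  set t := dg H4 v0 with ht
  set n3 := dg H3 v0 with hn3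
  set n2 := dg (small H) v0 with hn2
  have e4 : ∀ v, (∃ e ∈ H, v ∈ e) → dg H4 v = t := fun v hv => hreg.dg_eq hv hc0 (fun i => 4 ≤ i)
  have e3 : ∀ v, (∃ e ∈ H, v ∈ e) → dg H3 v = n3 := fun v hv => hreg.dg_eq hv hc0 (fun i => i = 3)
  have e2 : ∀ v, (∃ e ∈ H, v ∈ e) → dg (small H) v = n2 :=
    fun v hv => hreg.dg_eq hv hc0 (fun i => i = 2)
  have ebig : big H = H4 ∪ H3 := by
    ext e
    rw [mem_union, mem_big, hH4, hH3, mem_filter, mem_filter]
    constructor
    · rintro ⟨he, h3⟩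
      rcases Nat.lt_or_ge e.card 4 with h | h
      · exact Or.inr ⟨he, by omega⟩
      · exact Or.inl ⟨he, h⟩
    · rintro (⟨he, h3⟩ | ⟨he, h3⟩)
      · exact ⟨he, by omega⟩
      · exact ⟨he, by omega⟩
  have hdis : Disjoint H4 H3 := by
    rw [Finset.disjoint_left]
    intro e he hf
    rw [mem_filter] at he hf
    omega
  -- the size of a closed neighbourhood
  have hsize : 1 + n2 + 2 * n3 + 3 * t ≤ D := by
    refine le_trans ?_ (hD v0)
    rw [card_nbhd hlin hc0]
    have hs : ∀ (B : Finset (Finset V)) (k : ℕ), (∀ e ∈ B, k ≤ e.card - 1) →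
        k * dg B v0 ≤ ∑ e ∈ B.filter (fun e => v0 ∈ e), (e.card - 1) := by
      intro B k hB
      rw [dg, mul_comm, ← smul_eq_mul, ← Finset.sum_const]
      exact Finset.sum_le_sum fun e he => hB e (mem_filter.1 he).1
    have a4 := hs H4 3 (fun e he => by have := (mem_filter.1 he).2; omega)
    have a3 := hs H3 2 (fun e he => by have := (mem_filter.1 he).2; omega)
    have a2 := hs (small H) 1 (fun e he => by have := (mem_small.1 he).2; omega)
    have hsum : ∑ e ∈ H.filter (fun e => v0 ∈ e), (e.card - 1) =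
        ∑ e ∈ H4.filter (fun e => v0 ∈ e), (e.card - 1) +
        ∑ e ∈ H3.filter (fun e => v0 ∈ e), (e.card - 1) +
        ∑ e ∈ (small H).filter (fun e => v0 ∈ e), (e.card - 1) := by
      have b1 := sum_split h2 (fun e => if v0 ∈ e then e.card - 1 else 0)
      rw [ebig, Finset.sum_union hdis] at b1
      simpa only [Finset.sum_filter] using b1
    rw [hsum]
    omega
  have hsizeR : 1 + (n2:ℝ) + 2 * n3 + 3 * t ≤ D := by exact_mod_cast hsize
  have hbigdual : Dual (big H) (D : ℝ) := by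
    rw [ebig]
    have hD' : (0:ℝ) < 1 + 2 * (n3:ℝ) := by positivity
    have h4lin : IsLinear H4 := hlin.mono (filter_subset _ _)
    have h3lin : IsLinear H3 := hlin.mono (filter_subset _ _)
    have hd4 : Dual H4 (D:ℝ) := dual_four D H4 h4lin (fun e he => (mem_filter.1 he).2)
      (fun v => (Finset.card_le_card (nbhd_mono (filter_subset _ _) v)).trans (hD v))
    have hd3 : Dual H3 ((1 + 2 * n3 : ℕ) : ℝ) := by
      refine dual_three (1 + 2 * n3) H3 h3lin (fun e he => (mem_filter.1 he).2) ?_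
      intro v
      by_cases hv : ∃ e ∈ H3, v ∈ e
      · rw [card_nbhd h3lin hv]
        have hvH : ∃ e ∈ H, v ∈ e := by
          obtain ⟨e, he, hve⟩ := hv
          exact ⟨e, (mem_filter.1 he).1, hve⟩
        have b1 : ∑ e ∈ H3.filter (fun e => v ∈ e), (e.card - 1) = 2 * dg H3 v := by
          rw [Finset.sum_congr rfl (g := fun _ => 2) (fun e he => by
            have := (mem_filter.1 (mem_filter.1 he).1).2
            omega), Finset.sum_const, smul_eq_mul, mul_comm, dg]
        rw [b1, e3 v hvH]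
      · have : nbhd H3 v = ∅ := by
          rw [nbhd, Finset.filter_eq_empty_iff.2 (fun e he hve => hv ⟨e, he, hve⟩)]
          simp
        rw [this]
        simp
    refine dual_union hdis (Nat.cast_nonneg _) hd4 (fun _ => 1 / (1 + 2 * (n3:ℝ)))
      (fun e _ => by positivity) ?_ ?_
    · intro w hw
      obtain ⟨N, hN, hNw⟩ := hd3 w hw
      refine ⟨N, hN, ?_⟩
      push_cast at hNw
      rw [← Finset.mul_sum, one_div, ← div_eq_inv_mul, div_le_iff₀ hD']
      linarith
    · intro e he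
      have heH := mem_filter.1 he
      have c1 : ((H4.filter (fun A => ¬ Disjoint e A)).card : ℝ) ≤ 3 * t := by
        have c2 := card_meet_le H4 e
        rw [Finset.sum_congr rfl (fun v hv => e4 v ⟨e, heH.1, hv⟩), Finset.sum_const,
          smul_eq_mul, heH.2] at c2
        exact_mod_cast c2
      rw [one_div, ← div_eq_inv_mul, le_div_iff₀ hD', one_mul]
      have : (0:ℝ) ≤ n2 := Nat.cast_nonneg _
      linarith
  refine Stage.dual ⟨hlin, h2, fun v => by exact_mod_cast hD v, ?_⟩ hbigdual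
  intro a b _ habH
  have ha : ∃ e ∈ H, a ∈ e := ⟨_, habH, by simp⟩
  have hb : ∃ e ∈ H, b ∈ e := ⟨_, habH, by simp⟩
  have hbg : ∀ v, (∃ e ∈ H, v ∈ e) → dg (big H) v = t + n3 := by
    intro v hv
    rw [← e4 v hv, ← e3 v hv, ebig]
    simp only [dg]
    rw [Finset.filter_union, Finset.card_union_of_disjoint
      (Disjoint.mono (filter_subset _ _) (filter_subset _ _) hdis)]
  have hga := dg_split h2 a
  rw [hbg a ha, e2 a ha] at hga
  rw [hga, hbg b hb]
  push_cast
  have : (0:ℝ) ≤ t := Nat.cast_nonneg _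
  linarith

end Pool.Agent.Helper17.BFE
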